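import Pool.Agent.Helper85.KP.StE
import Pool.Agent.Helper2.KP.M_VRP

/-! # Project KP: module ECS (Cauchy-Schwarz for the potentials) -/

set_option autoImplicit false

namespace Pool.Agent.Helper38.KP

open MeasureTheory Filter Pool.Agent.Helper52.KP Pool.Agent.Helper85.KP
open scoped ContDiff ComplexOrder Topology

section

variable {m : ℕ}

private theorem fderiv_cf {g : (Fin m → ℂ) → ℝ} {z : Fin m → ℂ} (hg : DifferentiableAt ℝ g z)
    (v : Fin m → ℂ) : fderiv ℝ (cf g) z v = ((fderiv ℝ g z v : ℝ) : ℂ) := by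
  have h1 : HasFDerivAt (cf g) (Complex.ofRealCLM.comp (fderiv ℝ g z)) z :=
    Complex.ofRealCLM.hasFDerivAt.comp z hg.hasFDerivAt
  rw [h1.fderiv]
  rfl

private theorem diff_cf {g : (Fin m → ℂ) → ℝ} {z : Fin m → ℂ} (hg : DifferentiableAt ℝ g z) :
    DifferentiableAt ℝ (cf g) z :=
  (Complex.ofRealCLM.hasFDerivAt.comp z hg.hasFDerivAt).differentiableAt

private theorem der_comp {g : (Fin m → ℂ) → ℝ} {z : Fin m → ℂ} (hg : DifferentiableAt ℝ g z)
    {Φ : ℝ → ℝ} {Φ' : ℝ} (hΦ : HasDerivAt Φ Φ' (g z)) (j : Fin m) :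
    dz j (cf fun z => Φ (g z)) z = (Φ' : ℂ) * dz j (cf g) z ∧
      db j (cf fun z => Φ (g z)) z = (Φ' : ℂ) * db j (cf g) z := by
  have h1 : HasFDerivAt (fun z => Φ (g z)) (Φ' • fderiv ℝ g z) z :=
    hΦ.comp_hasFDerivAt z hg.hasFDerivAt
  have h2 : ∀ v, fderiv ℝ (cf fun z => Φ (g z)) z v = (Φ' : ℂ) * fderiv ℝ (cf g) z v := by
    intro v
    rw [fderiv_cf h1.differentiableAt, fderiv_cf hg, h1.fderiv]
    simp
  unfold dz db
  rw [h2, h2]
  constructor <;> ring

private theorem dz_real (hCAL : StCAL) {g : (Fin m → ℂ) → ℝ} {z : Fin m → ℂ}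
    (hg : DifferentiableAt ℝ g z) (j : Fin m) : dz j (cf g) z = star (db j (cf g) z) := by
  have h1 := ((hCAL m j j (cf g) (cf g) z).1 (diff_cf hg) (diff_cf hg)).2.2.2.2.1
  have h2 : (fun z => star (cf g z)) = cf g := by
    funext y
    exact Complex.conj_ofReal _
  rw [h2] at h1
  exact h1

/-- weighted sum of squares -/
noncomputable def Wg {N : ℕ} (c : Fin N → ℝ) (s : Fin N → MvPolynomial (Fin m) ℂ)
    (z : Fin m → ℂ) : ℝ := ∑ i, c i * ‖ev (s i) z‖ ^ 2

private theorem wg_smooth {N : ℕ} (c : Fin N → ℝ) (s : Fin N → MvPolynomial (Fin m) ℂ) :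
    ContDiff ℝ ∞ (Wg c s) := by
  unfold Wg
  refine ContDiff.sum fun i _ => contDiff_const.mul ?_
  exact (Pool.Agent.Helper2.KP.contDiff_evR (s i)).norm_sq ℝ

private theorem wg_diff {N : ℕ} (c : Fin N → ℝ) (s : Fin N → MvPolynomial (Fin m) ℂ)
    (z : Fin m → ℂ) : DifferentiableAt ℝ (Wg c s) z :=
  ((wg_smooth c s).differentiable (by norm_cast)) z

private theorem wg_db (hCAL : StCAL) {N : ℕ} (c : Fin N → ℝ)
    (s : Fin N → MvPolynomial (Fin m) ℂ) (z : Fin m → ℂ) (j : Fin m) :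
    db j (cf (Wg c s)) z =
      ∑ i, (c i : ℂ) * (ev (s i) z * star (dz j (fun z => ev (s i) z) z)) := by
  have hE : ∀ i, Differentiable ℂ fun z => ev (s i) z := fun i =>
    Pool.Agent.Helper2.KP.differentiable_evC (s i)
  have hEr : ∀ i z, DifferentiableAt ℝ (fun z => ev (s i) z) z := fun i z =>
    (hE i z).restrictScalars ℝ
  have e1 : cf (Wg c s) = fun z => ∑ i, (c i : ℂ) *
      ((fun z => ev (s i) z * star (ev (s i) z)) z) := by
    funext y
    show ((Wg c s y : ℝ) : ℂ) = _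
    unfold Wg
    push_cast
    apply Finset.sum_congr rfl
    intro i _
    have h1 : ev (s i) y * star (ev (s i) y) = ((‖ev (s i) y‖ : ℂ)) ^ 2 := Complex.mul_conj' _
    simp only [h1]
  rw [e1, Pool.Agent.Helper2.KP.db_sum]
  · apply Finset.sum_congr rfl
    intro i _
    rw [Pool.Agent.Helper2.KP.db_cmul]
    · rw [Pool.Agent.Helper2.KP.nsq_der hCAL (hE i)]
    · exact (hEr i z).mul (hEr i z).star
  · intro i _
    exact ((hEr i z).mul (hEr i z).star).const_mul _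

private theorem wg_dz (hCAL : StCAL) {N : ℕ} (c : Fin N → ℝ)
    (s : Fin N → MvPolynomial (Fin m) ℂ) (z : Fin m → ℂ) (j : Fin m) :
    dz j (cf (Wg c s)) z =
      ∑ i, (c i : ℂ) * (dz j (fun z => ev (s i) z) z * star (ev (s i) z)) := by
  rw [dz_real hCAL (wg_diff c s z), wg_db hCAL, star_sum]
  apply Finset.sum_congr rfl
  intro i _
  rw [star_mul', star_mul', star_star]
  have : star ((c i : ℝ) : ℂ) = ((c i : ℝ) : ℂ) := Complex.conj_ofReal _
  rw [this]
  ring

private theorem wg_dzsum (hCAL : StCAL) {N : ℕ} (c : Fin N → ℝ)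
    (s : Fin N → MvPolynomial (Fin m) ℂ) (z ξ : Fin m → ℂ) :
    ∑ j, dz j (cf (Wg c s)) z * ξ j =
      ∑ i, (c i : ℂ) * ((∑ j, dz j (fun z => ev (s i) z) z * ξ j) * star (ev (s i) z)) := by
  simp only [wg_dz hCAL, Finset.sum_mul, Finset.mul_sum]
  rw [Finset.sum_comm]
  apply Finset.sum_congr rfl
  intro i _
  apply Finset.sum_congr rfl
  intro j _
  ring

end

/-! ### the elementary inequality -/

private theorem cs_aux {S u v X Y : ℝ} (hX : 0 ≤ X)
    (hY : 0 ≤ Y) (hS : S ^ 2 ≤ X * Y) : (S + u * v) ^ 2 ≤ (Y + u ^ 2) * (X + v ^ 2) := by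
  have h1 : 2 * S * (u * v) ≤ Y * v ^ 2 + X * u ^ 2 := by
    have h2 : 0 ≤ Y * v ^ 2 + X * u ^ 2 := by positivity
    refine le_of_sq_le_sq ?_ h2
    have h3 : (2 * S * (u * v)) ^ 2 = 4 * S ^ 2 * (u * v) ^ 2 := by ring
    have h4 : 4 * S ^ 2 * (u * v) ^ 2 ≤ 4 * (X * Y) * (u * v) ^ 2 := by
      have := sq_nonneg (u * v)
      nlinarith
    have h5 : 0 ≤ (Y * v ^ 2 - X * u ^ 2) ^ 2 := sq_nonneg _
    nlinarith
  nlinarith

private theorem cs_main {N : ℕ} (e lam : Fin N → ℝ) (he : ∀ i, 0 < e i) (a b : Fin N → ℂ)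
    (P P1 P2 H α : ℝ) (M M1 : ℂ) (hα : 0 ≤ α) (hP : 0 < P)
    (eP : ∑ i, e i * ‖a i‖ ^ 2 = P) (eP1 : ∑ i, lam i * e i * ‖a i‖ ^ 2 = P1)
    (eP2 : ∑ i, lam i ^ 2 * e i * ‖a i‖ ^ 2 = P2) (eH : ∑ i, e i * ‖b i‖ ^ 2 = H)
    (eM : ∑ i, (e i : ℂ) * (b i * star (a i)) = M)
    (eM1 : ∑ i, ((lam i * e i : ℝ) : ℂ) * (b i * star (a i)) = M1) :
    0 ≤ H - (1 - α) * ‖M‖ ^ 2 / P ∧
    ‖M1 - (((1 - α) * P1 / P : ℝ) : ℂ) * M‖ ^ 2 ≤
      (P2 - (1 - α) * P1 ^ 2 / P) * (H - (1 - α) * ‖M‖ ^ 2 / P) := by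
  have hPc : (P : ℂ) ≠ 0 := by exact_mod_cast hP.ne'
  have nsq : ∀ w : ℂ, w * star w = ((‖w‖ ^ 2 : ℝ) : ℂ) := by
    intro w
    push_cast
    exact Complex.mul_conj' _
  have ePc : ∑ i, (e i : ℂ) * (a i * star (a i)) = (P : ℂ) := by
    rw [← eP]
    push_cast
    refine Finset.sum_congr rfl fun i _ => ?_
    rw [nsq]
    push_cast
    ring
  have eP1c : ∑ i, ((lam i : ℝ) : ℂ) * (e i : ℂ) * (a i * star (a i)) = (P1 : ℂ) := by
    rw [← eP1]
    push_cast
    refine Finset.sum_congr rfl fun i _ => ?_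
    rw [nsq]
    push_cast
    ring
  have eHc : ∑ i, (e i : ℂ) * (b i * star (b i)) = (H : ℂ) := by
    rw [← eH]
    push_cast
    refine Finset.sum_congr rfl fun i _ => ?_
    rw [nsq]
    push_cast
    ring
  have eMs : ∑ i, (e i : ℂ) * (a i * star (b i)) = star M := by
    rw [← eM, star_sum]
    refine Finset.sum_congr rfl fun i _ => ?_
    rw [star_mul', star_mul', star_star]
    have : star ((e i : ℝ) : ℂ) = ((e i : ℝ) : ℂ) := Complex.conj_ofReal _
    rw [this]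
    ring
  have eM1' : ∑ i, ((lam i : ℝ) : ℂ) * (e i : ℂ) * (b i * star (a i)) = M1 := by
    rw [← eM1]
    refine Finset.sum_congr rfl fun i _ => ?_
    push_cast
    ring
  have sPc : star (P : ℂ) = P := Complex.conj_ofReal _
  -- the three identities
  have i2 : ∑ i, e i * ‖b i - M / P * a i‖ ^ 2 = H - ‖M‖ ^ 2 / P := by
    have h1 : ((∑ i, e i * ‖b i - M / P * a i‖ ^ 2 : ℝ) : ℂ) = ((H - ‖M‖ ^ 2 / P : ℝ) : ℂ) := by
      have h2 : ((∑ i, e i * ‖b i - M / P * a i‖ ^ 2 : ℝ) : ℂ) =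
          ∑ i, ((e i : ℂ) * (b i * star (b i)) - star M / P * ((e i : ℂ) * (b i * star (a i)))
            - M / P * ((e i : ℂ) * (a i * star (b i))) +
            (M / P) * (star M / P) * ((e i : ℂ) * (a i * star (a i)))) := by
        rw [Complex.ofReal_sum]
        refine Finset.sum_congr rfl fun i _ => ?_
        rw [Complex.ofReal_mul, ← nsq, star_sub, star_mul', star_div₀, sPc]
        ring
      rw [h2, Finset.sum_add_distrib, Finset.sum_sub_distrib, Finset.sum_sub_distrib,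
        ← Finset.mul_sum, ← Finset.mul_sum, ← Finset.mul_sum, ePc, eHc, eMs, eM]
      have h3 : ((H - ‖M‖ ^ 2 / P : ℝ) : ℂ) = (H : ℂ) - M * star M / P := by
        rw [nsq]
        push_cast
        ring
      rw [h3]
      field_simp
      ring
    exact_mod_cast h1
  have i3 : ∑ i, e i * ‖((lam i - P1 / P : ℝ) : ℂ) * a i‖ ^ 2 = P2 - P1 ^ 2 / P := by
    have h2 : ∑ i, e i * ‖((lam i - P1 / P : ℝ) : ℂ) * a i‖ ^ 2 =
        ∑ i, (lam i ^ 2 * e i * ‖a i‖ ^ 2 - 2 * (P1 / P) * (lam i * e i * ‖a i‖ ^ 2) +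
          (P1 / P) ^ 2 * (e i * ‖a i‖ ^ 2)) := by
      refine Finset.sum_congr rfl fun i _ => ?_
      rw [norm_mul, mul_pow, Complex.norm_real, Real.norm_eq_abs, sq_abs]
      ring
    rw [h2, Finset.sum_add_distrib, Finset.sum_sub_distrib, ← Finset.mul_sum, ← Finset.mul_sum,
      eP, eP1, eP2]
    field_simp
    ring
  have i1 : ∑ i, (e i : ℂ) * ((b i - M / P * a i) * star (((lam i - P1 / P : ℝ) : ℂ) * a i)) =
      M1 - ((P1 / P : ℝ) : ℂ) * M := by
    have h2 : ∑ i, (e i : ℂ) * ((b i - M / P * a i) *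
        star (((lam i - P1 / P : ℝ) : ℂ) * a i)) =
        ∑ i, (((lam i : ℝ) : ℂ) * (e i : ℂ) * (b i * star (a i)) -
          ((P1 / P : ℝ) : ℂ) * ((e i : ℂ) * (b i * star (a i))) -
          M / P * (((lam i : ℝ) : ℂ) * (e i : ℂ) * (a i * star (a i))) +
          M / P * ((P1 / P : ℝ) : ℂ) * ((e i : ℂ) * (a i * star (a i)))) := by
      refine Finset.sum_congr rfl fun i _ => ?_
      have h3 : star (((lam i - P1 / P : ℝ) : ℂ)) = ((lam i - P1 / P : ℝ) : ℂ) :=
        Complex.conj_ofReal _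
      rw [star_mul', h3]
      push_cast
      ring
    rw [h2, Finset.sum_add_distrib, Finset.sum_sub_distrib, Finset.sum_sub_distrib,
      ← Finset.mul_sum, ← Finset.mul_sum, ← Finset.mul_sum, ePc, eP1c, eM, eM1']
    push_cast
    field_simp
    ring
  set S : ℂ := M1 - ((P1 / P : ℝ) : ℂ) * M with hSdef
  set X : ℝ := H - ‖M‖ ^ 2 / P with hX
  set Y : ℝ := P2 - P1 ^ 2 / P with hY
  have hX0 : 0 ≤ X := by
    rw [← i2]
    exact Finset.sum_nonneg fun i _ => mul_nonneg (he i).le (sq_nonneg _)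
  have hY0 : 0 ≤ Y := by
    rw [← i3]
    exact Finset.sum_nonneg fun i _ => mul_nonneg (he i).le (sq_nonneg _)
  have hSXY : ‖S‖ ^ 2 ≤ X * Y := by
    have h1 : ‖S‖ ≤ ∑ i, (Real.sqrt (e i) * ‖b i - M / P * a i‖) *
        (Real.sqrt (e i) * ‖((lam i - P1 / P : ℝ) : ℂ) * a i‖) := by
      rw [← i1]
      refine (norm_sum_le _ _).trans (le_of_eq (Finset.sum_congr rfl fun i _ => ?_))
      rw [norm_mul, norm_mul, norm_star, Complex.norm_real, Real.norm_of_nonneg (he i).le]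
      have := Real.mul_self_sqrt (he i).le
      calc e i * (‖b i - M / P * a i‖ * ‖((lam i - P1 / P : ℝ) : ℂ) * a i‖)
          = (Real.sqrt (e i) * Real.sqrt (e i)) *
            (‖b i - M / P * a i‖ * ‖((lam i - P1 / P : ℝ) : ℂ) * a i‖) := by rw [this]
        _ = _ := by ring
    have h2 := Finset.sum_mul_sq_le_sq_mul_sq Finset.univ
      (fun i => Real.sqrt (e i) * ‖b i - M / P * a i‖)
      (fun i => Real.sqrt (e i) * ‖((lam i - P1 / P : ℝ) : ℂ) * a i‖)
    have h3 : ∑ i, (Real.sqrt (e i) * ‖b i - M / P * a i‖) ^ 2 = X := by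
      rw [← i2]
      refine Finset.sum_congr rfl fun i _ => ?_
      rw [mul_pow, Real.sq_sqrt (he i).le]
    have h4 : ∑ i, (Real.sqrt (e i) * ‖((lam i - P1 / P : ℝ) : ℂ) * a i‖) ^ 2 = Y := by
      rw [← i3]
      refine Finset.sum_congr rfl fun i _ => ?_
      rw [mul_pow, Real.sq_sqrt (he i).le]
    rw [h3, h4] at h2
    exact (pow_le_pow_left₀ (norm_nonneg _) h1 2).trans h2
  have e1 : H - (1 - α) * ‖M‖ ^ 2 / P = X + (Real.sqrt (α / P) * ‖M‖) ^ 2 := by
    rw [mul_pow, Real.sq_sqrt (div_nonneg hα hP.le), hX]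
    ring
  have e2 : P2 - (1 - α) * P1 ^ 2 / P = Y + (Real.sqrt (α / P) * |P1|) ^ 2 := by
    rw [mul_pow, Real.sq_sqrt (div_nonneg hα hP.le), sq_abs, hY]
    ring
  have e3 : M1 - (((1 - α) * P1 / P : ℝ) : ℂ) * M = S + ((α / P * P1 : ℝ) : ℂ) * M := by
    rw [hSdef]
    push_cast
    ring
  have e4 : ‖((α / P * P1 : ℝ) : ℂ) * M‖ = (Real.sqrt (α / P) * |P1|) *
      (Real.sqrt (α / P) * ‖M‖) := by
    rw [norm_mul, Complex.norm_real, Real.norm_eq_abs, abs_mul,
      abs_of_nonneg (div_nonneg hα hP.le)]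
    have := Real.mul_self_sqrt (div_nonneg hα hP.le)
    calc α / P * |P1| * ‖M‖ = (Real.sqrt (α / P) * Real.sqrt (α / P)) * |P1| * ‖M‖ := by
          rw [this]
      _ = _ := by ring
  refine ⟨by rw [e1]; positivity, ?_⟩
  rw [e1, e2, e3]
  have h5 : ‖S + ((α / P * P1 : ℝ) : ℂ) * M‖ ≤ ‖S‖ + (Real.sqrt (α / P) * |P1|) *
      (Real.sqrt (α / P) * ‖M‖) := by
    rw [← e4]
    exact norm_add_le _ _
  exact (pow_le_pow_left₀ (norm_nonneg _) h5 2).trans
    (cs_aux hX0 hY0 hSXY)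

/-! ### the chain rule -/

private theorem der_phi {c0 α x : ℝ} (hc : 0 < c0) (hx : 0 < x) :
    HasDerivAt (fun x => (x / c0) ^ α) (α * (x / c0) ^ α / x) x := by
  have h1 : HasDerivAt (fun x : ℝ => x / c0) (1 / c0) x := (hasDerivAt_id x).div_const c0
  have h2 := h1.rpow_const (p := α) (Or.inl (div_pos hx hc).ne')
  have h3 : 1 / c0 * α * (x / c0) ^ (α - 1) = α * (x / c0) ^ α / x := by
    rw [Real.rpow_sub_one (div_pos hx hc).ne']
    field_simp
  rw [h3] at h2
  exact h2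

private theorem der_gam {c0 α x : ℝ} (hc : 0 < c0) (hx : 0 < x) :
    HasDerivAt (fun x => α * (x / c0) ^ α / x) ((α - 1) * (α * (x / c0) ^ α / x) / x) x := by
  have h1 := ((der_phi (α := α) hc hx).const_mul α).div (hasDerivAt_id x) hx.ne'
  have h2 : (α * (α * (x / c0) ^ α / x) * id x - α * (x / c0) ^ α * 1) / id x ^ 2 =
      (α - 1) * (α * (x / c0) ^ α / x) / x := by
    simp only [id]
    field_simp
  rw [h2] at h1
  exact h1

section

variable {m : ℕ}

private theorem isOpen_Uc (C : Cone) : IsOpen C.U := by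
  have h : Continuous fun z => ev C.Δ z :=
    (Pool.Agent.Helper2.KP.differentiable_evC C.Δ).continuous
  exact isOpen_ne.preimage h

private theorem hes_comp (hCAL : StCAL) {g : (Fin m → ℂ) → ℝ} (hg : ContDiff ℝ ∞ g)
    {U : Set (Fin m → ℂ)} (hU : IsOpen U) {c0 α : ℝ} (hc : 0 < c0) (hpos : ∀ z ∈ U, 0 < g z)
    {z : Fin m → ℂ} (hz : z ∈ U) (j k : Fin m) :
    hes (fun z => (g z / c0) ^ α) z j k = ((α * (g z / c0) ^ α / g z : ℝ) : ℂ) *
      (hes g z j k - (((1 - α) / g z : ℝ) : ℂ) * (dz j (cf g) z * star (dz k (cf g) z))) := by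
  have hgd : ∀ z, DifferentiableAt ℝ g z := fun z => (hg.differentiable (by norm_cast)) z
  have hcfs : ContDiff ℝ ∞ (cf g) := Complex.ofRealCLM.contDiff.comp hg
  have hdbk : DifferentiableAt ℝ (db k (cf g)) z := by
    have h1 := ((hCAL m k k (cf g) (cf g) z).2.2.2.2 Set.univ isOpen_univ hcfs.contDiffOn).2
    exact ((contDiffOn_univ.1 h1).differentiable (by norm_cast)) z
  have hgam : DifferentiableAt ℝ (fun z => α * (g z / c0) ^ α / g z) z :=
    ((der_gam (α := α) hc (hpos z hz)).comp_hasFDerivAt z (hgd z).hasFDerivAt).differentiableAt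
  have h1 : db k (cf fun z => (g z / c0) ^ α) =ᶠ[𝓝 z]
      fun y => cf (fun y => α * (g y / c0) ^ α / g y) y * db k (cf g) y := by
    filter_upwards [hU.mem_nhds hz] with y hy
    exact (der_comp (hgd y) (der_phi (α := α) hc (hpos y hy)) k).2
  have h2 : dz j (db k (cf fun z => (g z / c0) ^ α)) z =
      dz j (fun y => cf (fun y => α * (g y / c0) ^ α / g y) y * db k (cf g) y) z := by
    unfold dz
    rw [h1.fderiv_eq]
  have h3 := ((hCAL m j j (cf (fun y => α * (g y / c0) ^ α / g y)) (db k (cf g)) z).1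
    (diff_cf hgam) hdbk).2.2.1
  have h4 := (der_comp (hgd z) (der_gam (α := α) hc (hpos z hz)) j).1
  have h5 : db k (cf g) z = star (dz k (cf g) z) := by
    rw [dz_real hCAL (hgd z), star_star]
  show dz j (db k (cf fun z => (g z / c0) ^ α)) z = _
  rw [h2, h3, h4, h5]
  show _ + ((α * (g z / c0) ^ α / g z : ℝ) : ℂ) * dz j (db k (cf g)) z =
    ((α * (g z / c0) ^ α / g z : ℝ) : ℂ) * (dz j (db k (cf g)) z - _)
  push_cast
  ring

private theorem hf_comp (h : Matrix (Fin m) (Fin m) ℂ) (c κ : ℝ) (p ξ : Fin m → ℂ)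
    (h' : Matrix (Fin m) (Fin m) ℂ)
    (hh : ∀ j k, h' j k = (c : ℂ) * (h j k - (κ : ℂ) * (p j * star (p k)))) :
    hf h' ξ = c * (hf h ξ - κ * ‖∑ j, p j * ξ j‖ ^ 2) := by
  have h1 : ∑ j, ∑ k, h' j k * ξ j * star (ξ k) = (c : ℂ) * (∑ j, ∑ k, h j k * ξ j * star (ξ k)
      - (κ : ℂ) * ((∑ j, p j * ξ j) * star (∑ j, p j * ξ j))) := by
    rw [star_sum, Finset.sum_mul_sum, Finset.mul_sum, mul_sub, Finset.mul_sum, Finset.mul_sum,
      ← Finset.sum_sub_distrib]
    refine Finset.sum_congr rfl fun j _ => ?_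
    rw [Finset.mul_sum, Finset.mul_sum, Finset.mul_sum, ← Finset.sum_sub_distrib]
    refine Finset.sum_congr rfl fun k _ => ?_
    rw [hh, star_mul']
    ring
  have h2 : (∑ j, p j * ξ j) * star (∑ j, p j * ξ j) =
      ((‖∑ j, p j * ξ j‖ ^ 2 : ℝ) : ℂ) := by
    push_cast
    exact Complex.mul_conj' _
  unfold hf
  rw [h1, h2, Complex.re_ofReal_mul, Complex.sub_re, ← Complex.ofReal_mul, Complex.ofReal_re]

end

theorem hECS : StCAL → StEPO → StECS := by
  intro hCAL hEPO C hC D N hD s lam hs t ht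
  have hDr : (0 : ℝ) < D := by exact_mod_cast hD
  have hKD : 0 < KD C D := by
    unfold KD
    have := Real.pi_pos
    positivity
  -- a bound of the jumps
  have hL : ∀ j, (lam j : ℝ) ≤ 1 + ∑ i, (lam i : ℝ) := by
    intro j
    have h1 := Finset.single_le_sum (f := fun i => (lam i : ℝ)) (fun i _ => Nat.cast_nonneg _)
      (Finset.mem_univ j)
    linarith
  have hL0 : (0 : ℝ) < 1 + ∑ i, (lam i : ℝ) := by
    have : (0 : ℝ) ≤ ∑ i, (lam i : ℝ) := Finset.sum_nonneg fun i _ => Nat.cast_nonneg _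
    linarith
  have hE := fun z hz => hEPO C hC D N hD s lam hs _ hL0 hL z hz t ht
  set α : ℝ := 1 / (2 * D) with hα
  have hα0 : 0 < α := by positivity
  have hP : ∀ z ∈ C.U, 0 < PP s lam t z := fun z hz => (hE z hz).1
  have hUo := isOpen_Uc C
  have sP : ContDiff ℝ ∞ (PP s lam t) := wg_smooth (fun i => Real.exp (t * lam i)) s
  have sPn : ∀ n, ContDiff ℝ ∞ (PPn n s lam t) := fun n =>
    wg_smooth (fun i => (lam i : ℝ) ^ n * Real.exp (t * lam i)) s
  have dP : ∀ z, DifferentiableAt ℝ (PP s lam t) z := fun z =>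
    (sP.differentiable (by norm_cast)) z
  have dPn : ∀ n z, DifferentiableAt ℝ (PPn n s lam t) z := fun n z =>
    ((sPn n).differentiable (by norm_cast)) z
  have spsi : ContDiffOn ℝ ∞ (psi C D s lam t) C.U := by
    intro z hz
    have h1 : ContDiffAt ℝ ∞ (fun z => (PP s lam t z / KD C D) ^ α) z := by
      refine ContDiffAt.rpow_const_of_ne ?_ (div_pos (hP z hz) hKD).ne'
      exact sP.contDiffAt.div_const _
    exact h1.contDiffWithinAt
  have sF1 : ContDiffOn ℝ ∞ (F1 s lam t) C.U :=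
    (sPn 1).contDiffOn.div sP.contDiffOn fun z hz => (hP z hz).ne'
  have sF2 : ContDiffOn ℝ ∞ (F2 s lam t) C.U :=
    ((sPn 2).contDiffOn.div sP.contDiffOn fun z hz => (hP z hz).ne').sub (sF1.pow 2)
  refine ⟨hKD, spsi, spsi.mul (sF1.div_const _), ?_, fun z hz => ?_⟩
  · exact (spsi.mul ((sF2.div_const _).add ((sF1.div_const _).pow 2))).continuousOn
  have hPz := hP z hz
  obtain ⟨-, -, -, h1, h2, h3, h4, -, -, hhom⟩ := hE z hz
  have hpsi : 0 < psi C D s lam t z := Real.rpow_pos_of_pos (div_pos hPz hKD) _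
  set c : ℝ := α * (PP s lam t z / KD C D) ^ α / PP s lam t z with hc
  have hc0 : 0 < c := by
    have : 0 < (PP s lam t z / KD C D) ^ α := Real.rpow_pos_of_pos (div_pos hPz hKD) _
    positivity
  have hhes : ∀ j k, hes (psi C D s lam t) z j k = (c : ℂ) * (hes (PP s lam t) z j k -
      (((1 - α) / PP s lam t z : ℝ) : ℂ) * (dz j (cf (PP s lam t)) z *
        star (dz k (cf (PP s lam t)) z))) := fun j k =>
    hes_comp hCAL sP hUo hKD hP hz j k
  have hhf : ∀ ξ, hf (hes (psi C D s lam t) z) ξ = c * (hf (hes (PP s lam t) z) ξ -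
      (1 - α) / PP s lam t z * ‖∑ j, dz j (cf (PP s lam t)) z * ξ j‖ ^ 2) := fun ξ =>
    hf_comp _ _ _ _ _ _ hhes
  have hcs := fun ξ : Fin C.m → ℂ => cs_main (fun i => Real.exp (t * lam i))
    (fun i => (lam i : ℝ)) (fun i => Real.exp_pos _) (fun i => ev (s i) z)
    (fun i => ∑ j, dz j (fun z => ev (s i) z) z * ξ j) (PP s lam t z) (PPn 1 s lam t z)
    (PPn 2 s lam t z) (hf (hes (PP s lam t) z) ξ) α (∑ j, dz j (cf (PP s lam t)) z * ξ j)
    (∑ j, dz j (cf (PPn 1 s lam t)) z * ξ j) hα0.le hPz rfl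
    (by unfold PPn; simp only [pow_one]) rfl
    (Pool.Agent.Helper2.KP.PP_hf hCAL s lam t z ξ).symm
    (wg_dzsum hCAL (fun i => Real.exp (t * lam i)) s z ξ).symm
    (by
      have h5 := wg_dzsum hCAL (fun i => (lam i : ℝ) ^ 1 * Real.exp (t * lam i)) s z ξ
      simp only [pow_one] at h5
      have h6 : PPn 1 s lam t = Wg (fun i => (lam i : ℝ) * Real.exp (t * lam i)) s := by
        funext y
        unfold PPn Wg
        simp only [pow_one]
      rw [h6]
      exact h5.symm)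
  refine ⟨hpsi, ⟨?_, fun ξ => ?_⟩, ?_, fun ξ => ?_, fun c' hc' => ?_⟩
  · ext j k
    rw [Matrix.conjTranspose_apply, hhes, hhes, star_mul', star_sub, star_mul', star_mul',
      star_star]
    have h5 : star (hes (PP s lam t) z k j) = hes (PP s lam t) z j k := by
      have := (Pool.Agent.Helper2.KP.PP_psd hCAL s lam t z).1.apply j k
      exact this
    have h6 : star (c : ℂ) = c := Complex.conj_ofReal _
    have h7 : star (((1 - α) / PP s lam t z : ℝ) : ℂ) = (((1 - α) / PP s lam t z : ℝ) : ℂ) :=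
      Complex.conj_ofReal _
    rw [h5, h6, h7]
    ring
  · rw [hhf]
    refine mul_nonneg hc0.le ?_
    have h5 := (hcs ξ).1
    have h6 : (1 - α) / PP s lam t z * ‖∑ j, dz j (cf (PP s lam t)) z * ξ j‖ ^ 2 =
        (1 - α) * ‖∑ j, dz j (cf (PP s lam t)) z * ξ j‖ ^ 2 / PP s lam t z := by ring
    rw [h6]
    exact h5
  · unfold psi2
    have h5 : 0 ≤ F2 s lam t z / (2 * D) + (F1 s lam t z / (2 * D)) ^ 2 := by positivity
    exact mul_nonneg hpsi.le h5
  · have h5 : cf (psi1 C D s lam t) = fun y =>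
        cf (fun y => α * (PP s lam t y / KD C D) ^ α / PP s lam t y) y *
          cf (PPn 1 s lam t) y := by
      funext y
      show ((psi1 C D s lam t y : ℝ) : ℂ) = _
      unfold cf
      rw [← Complex.ofReal_mul]
      congr 1
      unfold psi1 psi F1
      rw [← hα, hα]
      ring
    have hgam : DifferentiableAt ℝ
        (fun z => α * (PP s lam t z / KD C D) ^ α / PP s lam t z) z :=
      ((der_gam (α := α) hKD hPz).comp_hasFDerivAt z (dP z).hasFDerivAt).differentiableAt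
    have h6 : ∀ j, dz j (cf (psi1 C D s lam t)) z = (c : ℂ) * (dz j (cf (PPn 1 s lam t)) z -
        (((1 - α) * PPn 1 s lam t z / PP s lam t z : ℝ) : ℂ) * dz j (cf (PP s lam t)) z) := by
      intro j
      have h7 := ((hCAL C.m j j (cf (fun y => α * (PP s lam t y / KD C D) ^ α / PP s lam t y))
        (cf (PPn 1 s lam t)) z).1 (diff_cf hgam) (diff_cf (dPn 1 z))).2.2.1
      have h8 := (der_comp (dP z) (der_gam (α := α) hKD hPz) j).1
      rw [h5, h7, h8]
      show _ * ((PPn 1 s lam t z : ℝ) : ℂ) + ((α * (PP s lam t z / KD C D) ^ α /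
        PP s lam t z : ℝ) : ℂ) * _ = _
      rw [← hc]
      push_cast
      ring
    have h7 : ∑ j, dz j (cf (psi1 C D s lam t)) z * ξ j = (c : ℂ) *
        (∑ j, dz j (cf (PPn 1 s lam t)) z * ξ j -
        (((1 - α) * PPn 1 s lam t z / PP s lam t z : ℝ) : ℂ) *
          ∑ j, dz j (cf (PP s lam t)) z * ξ j) := by
      rw [mul_sub, Finset.mul_sum, Finset.mul_sum, Finset.mul_sum, ← Finset.sum_sub_distrib]
      refine Finset.sum_congr rfl fun j _ => ?_
      rw [h6]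
      ring
    have h8 : psi2 C D s lam t z = c * (PPn 2 s lam t z -
        (1 - α) * PPn 1 s lam t z ^ 2 / PP s lam t z) := by
      unfold psi2 psi F2 F1
      rw [hc, hα]
      field_simp
      ring
    rw [h7, h8, hhf, norm_mul, mul_pow, Complex.norm_real, Real.norm_of_nonneg hc0.le]
    have h9 := (hcs ξ).2
    have h10 : (1 - α) / PP s lam t z * ‖∑ j, dz j (cf (PP s lam t)) z * ξ j‖ ^ 2 =
        (1 - α) * ‖∑ j, dz j (cf (PP s lam t)) z * ξ j‖ ^ 2 / PP s lam t z := by ring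
    rw [h10]
    calc c ^ 2 * _ ≤ c ^ 2 * ((PPn 2 s lam t z - (1 - α) * PPn 1 s lam t z ^ 2 / PP s lam t z) *
        (hf (hes (PP s lam t) z) ξ -
          (1 - α) * ‖∑ j, dz j (cf (PP s lam t)) z * ξ j‖ ^ 2 / PP s lam t z)) :=
          mul_le_mul_of_nonneg_left h9 (sq_nonneg c)
      _ = _ := by ring
  · obtain ⟨h5, h6, -⟩ := hhom c' hc'
    have h7 : psi C D s lam t (scl C.w c' z) = ‖c'‖ * psi C D s lam t z := by
      unfold psi
      rw [h5, mul_div_assoc, Real.mul_rpow (by positivity) (div_pos hPz hKD).le]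
      congr 1
      have h8 : ((1 : ℝ) / (2 * D)) = ((2 * D : ℕ) : ℝ)⁻¹ := by
        push_cast
        rw [one_div]
      rw [h8]
      exact Real.pow_rpow_inv_natCast (norm_nonneg _) (by omega)
    refine ⟨h7, ?_⟩
    unfold psi1
    rw [h7, h6]
    ring

end Pool.Agent.Helper38.KP
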