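import Pool.Agent.Helper93.KP.St
import Pool.Agent.Helper15.AB.M_KB

/-!
# Project KP, module WEI: Weil's bound for Kloosterman sums, squarefree moduli
-/

set_option autoImplicit false

namespace Pool.Agent.Helper38.KP

open Finset Filter Topology Pool.Agent.Helper93.KP
open Pool.Agent.Helper15.AB (ee Kl StDB StMT)
open Pool.Agent.Helper15.FC (StWKL)

/-- Kloosterman sum of an additive character of `ZMod r` -/
private noncomputable def KU (r : ℕ) [NeZero r] (ψ : AddChar (ZMod r) ℂ) (α β : ℤ) : ℂ :=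
  ∑ u : (ZMod r)ˣ, ψ ((α : ZMod r) * (u : ZMod r) + (β : ZMod r) * ((u⁻¹ : (ZMod r)ˣ) : ZMod r))

private theorem KU_mul {m n : ℕ} [NeZero m] [NeZero n] [NeZero (m * n)] (h : Nat.Coprime m n)
    (ψ : AddChar (ZMod (m * n)) ℂ) (hψ : ψ.IsPrimitive) :
    ∃ (ψ₁ : AddChar (ZMod m) ℂ) (ψ₂ : AddChar (ZMod n) ℂ), ψ₁.IsPrimitive ∧ ψ₂.IsPrimitive ∧
      ∀ α β : ℤ, KU (m * n) ψ α β = KU m ψ₁ α β * KU n ψ₂ α β := by
  classical
  set e : ZMod (m * n) ≃+* ZMod m × ZMod n := ZMod.chineseRemainder h with he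
  set ψ₁ : AddChar (ZMod m) ℂ := ψ.compAddMonoidHom
    ((e.symm : ZMod m × ZMod n →+ ZMod (m * n)).comp (AddMonoidHom.inl (ZMod m) (ZMod n))) with h1
  set ψ₂ : AddChar (ZMod n) ℂ := ψ.compAddMonoidHom
    ((e.symm : ZMod m × ZMod n →+ ZMod (m * n)).comp (AddMonoidHom.inr (ZMod m) (ZMod n))) with h2
  have e1 : ∀ x : ZMod m, ψ₁ x = ψ (e.symm (x, 0)) := fun x => rfl
  have e2 : ∀ x : ZMod n, ψ₂ x = ψ (e.symm (0, x)) := fun x => rfl
  have key : ∀ x : ZMod m × ZMod n, ψ (e.symm x) = ψ₁ x.1 * ψ₂ x.2 := by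
    rintro ⟨x, y⟩
    rw [e1, e2, ← AddChar.map_add_eq_mul, ← map_add, Prod.mk_add_mk, add_zero, zero_add]
  refine ⟨ψ₁, ψ₂, ?_, ?_, ?_⟩
  · intro a ha hcon
    have ha' : e.symm (a, 0) ≠ 0 := by
      intro h0
      rw [map_eq_zero_iff _ e.symm.injective] at h0
      exact ha (congrArg Prod.fst h0)
    apply hψ ha'
    ext x
    rw [AddChar.mulShift_apply, AddChar.one_apply]
    have hx : e.symm (a, 0) * x = e.symm (a * (e x).1, 0) := by
      apply e.injective
      rw [map_mul, e.apply_symm_apply, e.apply_symm_apply]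
      ext
      · simp
      · simp
    rw [hx, ← e1, ← AddChar.mulShift_apply, hcon, AddChar.one_apply]
  · intro a ha hcon
    have ha' : e.symm (0, a) ≠ 0 := by
      intro h0
      rw [map_eq_zero_iff _ e.symm.injective] at h0
      exact ha (congrArg Prod.snd h0)
    apply hψ ha'
    ext x
    rw [AddChar.mulShift_apply, AddChar.one_apply]
    have hx : e.symm (0, a) * x = e.symm (0, a * (e x).2) := by
      apply e.injective
      rw [map_mul, e.apply_symm_apply, e.apply_symm_apply]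
      ext
      · simp
      · simp
    rw [hx, ← e2, ← AddChar.mulShift_apply, hcon, AddChar.one_apply]
  · intro α β
    set E : (ZMod (m * n))ˣ ≃ (ZMod m)ˣ × (ZMod n)ˣ :=
      ((Units.mapEquiv (e : ZMod (m * n) ≃* ZMod m × ZMod n)).trans MulEquiv.prodUnits).toEquiv
      with hE
    have E1 : ∀ u : (ZMod (m * n))ˣ, (((E u).1 : (ZMod m)ˣ) : ZMod m) = (e u).1 := fun u => rfl
    have E2 : ∀ u : (ZMod (m * n))ˣ, (((E u).2 : (ZMod n)ˣ) : ZMod n) = (e u).2 := fun u => rfl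
    have E3 : ∀ u : (ZMod (m * n))ˣ, (((E u).1⁻¹ : (ZMod m)ˣ) : ZMod m) =
        (e ((u⁻¹ : (ZMod (m * n))ˣ) : ZMod (m * n))).1 := fun u => rfl
    have E4 : ∀ u : (ZMod (m * n))ˣ, (((E u).2⁻¹ : (ZMod n)ˣ) : ZMod n) =
        (e ((u⁻¹ : (ZMod (m * n))ˣ) : ZMod (m * n))).2 := fun u => rfl
    unfold KU
    rw [Finset.sum_mul_sum, ← Fintype.sum_prod_type']
    refine Fintype.sum_equiv E _ _ ?_
    intro u
    rw [E1, E2, E3, E4]
    have h5 : ∀ z : ZMod (m * n), ψ z = ψ₁ (e z).1 * ψ₂ (e z).2 := by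
      intro z
      rw [← key, e.symm_apply_apply]
    rw [h5]
    simp only [map_add, map_mul, map_intCast, Prod.fst_add, Prod.snd_add, Prod.fst_mul,
      Prod.snd_mul, Prod.fst_intCast, Prod.snd_intCast]

private theorem prime_case (hW : StWKL) (p : ℕ) (hp : p.Prime) [NeZero p]
    (ψ : AddChar (ZMod p) ℂ) (hψ : ψ.IsPrimitive) (α β : ℤ) :
    ‖KU p ψ α β‖ ≤ 2 * √(Int.gcd (Int.gcd α β) p : ℝ) * √(p : ℝ) := by
  classical
  have : Fact p.Prime := ⟨hp⟩
  have hψ1 : ψ ≠ 1 := by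
    intro h
    apply hψ (one_ne_zero : (1 : ZMod p) ≠ 0)
    rw [AddChar.mulShift_one, h]
  by_cases h0 : (α : ZMod p) = 0 ∧ (β : ZMod p) = 0
  · have hα : (p : ℤ) ∣ α := (ZMod.intCast_zmod_eq_zero_iff_dvd α p).1 h0.1
    have hβ : (p : ℤ) ∣ β := (ZMod.intCast_zmod_eq_zero_iff_dvd β p).1 h0.2
    have hg : Int.gcd (Int.gcd α β) p = p := by
      have h1 : (p : ℤ) ∣ (Int.gcd α β : ℤ) := Int.dvd_coe_gcd hα hβ
      rw [Int.gcd_natCast_natCast]
      exact Nat.gcd_eq_right (Int.natCast_dvd_natCast.1 h1)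
    rw [hg]
    have h2 : KU p ψ α β = (Fintype.card (ZMod p)ˣ : ℂ) := by
      unfold KU
      rw [h0.1, h0.2]
      simp only [zero_mul, add_zero, AddChar.map_zero_eq_one, Finset.sum_const, Finset.card_univ,
        nsmul_eq_mul, mul_one]
    rw [h2, ZMod.card_units_eq_totient, Complex.norm_natCast, mul_assoc,
      Real.mul_self_sqrt (Nat.cast_nonneg p)]
    have h3 : (Nat.totient p : ℝ) ≤ (p : ℝ) := by exact_mod_cast Nat.totient_le p
    have h4 : (0 : ℝ) ≤ (p : ℝ) := Nat.cast_nonneg p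
    linarith
  · have h1 : KU p ψ α β = ∑ x ∈ Finset.univ.filter (fun x : ZMod p => x ≠ 0),
        ψ ((α : ZMod p) * x + (β : ZMod p) * x⁻¹) := by
      unfold KU
      refine Finset.sum_bij (fun (u : (ZMod p)ˣ) _ => (u : ZMod p)) ?_ ?_ ?_ ?_
      · intro u _
        rw [mem_filter]
        exact ⟨mem_univ _, u.ne_zero⟩
      · intro u _ v _ h
        exact Units.ext h
      · intro x hx
        rw [mem_filter] at hx
        exact ⟨Units.mk0 x hx.2, mem_univ _, rfl⟩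
      · intro u _
        rw [Units.val_inv_eq_inv_val]
    have h2 : (α : ZMod p) ≠ 0 ∨ (β : ZMod p) ≠ 0 := by
      by_contra hcon
      push Not at hcon
      exact h0 hcon
    have h3 := hW (ZMod p) ψ (α : ZMod p) (β : ZMod p) hψ1 h2
    have h4 : (Pool.Agent.Helper15.FC.qr (ZMod p)) = (p : ℝ) := by
      simp [Pool.Agent.Helper15.FC.qr, ZMod.card]
    rw [h4] at h3
    have h3' : ‖KU p ψ α β‖ ≤ 2 * √(p : ℝ) := by
      rw [h1]
      convert h3
    refine h3'.trans ?_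
    have h5 : (1 : ℝ) ≤ √(Int.gcd (Int.gcd α β) p : ℝ) := by
      rw [Real.one_le_sqrt]
      have h6 : 0 < Int.gcd (Int.gcd α β) p := by
        rw [Int.gcd_pos_iff]
        right
        exact_mod_cast hp.ne_zero
      exact_mod_cast h6
    have h6 : 0 ≤ √(p : ℝ) := Real.sqrt_nonneg _
    nlinarith

private theorem main (hW : StWKL) (r : ℕ) : Squarefree r → ∀ [NeZero r]
    (ψ : AddChar (ZMod r) ℂ), ψ.IsPrimitive → ∀ α β : ℤ,
    ‖KU r ψ α β‖ ≤ (r.divisors.card : ℝ) * √(Int.gcd (Int.gcd α β) r : ℝ) * √(r : ℝ) := by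
  induction r using Nat.recOnPosPrimePosCoprime with
  | prime_pow p n hp hn =>
    intro hsq
    have hn1 : n = 1 := by
      by_contra hne
      have h2 : 2 ≤ n := by omega
      have h3 : p * p ∣ p ^ n := by
        rw [← pow_two]
        exact pow_dvd_pow p h2
      have h4 := hsq p h3
      exact hp.one_lt.ne' (Nat.isUnit_iff.1 h4)
    subst hn1
    rw [pow_one]
    intro _ ψ hψ α β
    have := prime_case hW p hp ψ hψ α β
    have hd : p.divisors.card = 2 := by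
      rw [hp.divisors, Finset.card_pair hp.one_lt.ne]
    rw [hd]
    exact_mod_cast this
  | zero =>
    intro hsq
    exact absurd hsq not_squarefree_zero
  | one =>
    intro _ _ ψ _ α β
    have h1 : ‖KU 1 ψ α β‖ ≤ 1 := by
      unfold KU
      refine (norm_sum_le _ _).trans ?_
      have h2 : ∀ u ∈ (Finset.univ : Finset (ZMod 1)ˣ),
          ‖ψ ((α : ZMod 1) * (u : ZMod 1) + (β : ZMod 1) * ((u⁻¹ : (ZMod 1)ˣ) : ZMod 1))‖ ≤ 1 :=
        fun u _ => (AddChar.norm_apply ψ _).le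
      refine (Finset.sum_le_card_nsmul _ _ _ h2).trans ?_
      rw [Finset.card_univ, ZMod.card_units_eq_totient]
      simp
    refine h1.trans ?_
    simp
  | coprime a b ha hb hab iha ihb =>
    intro hsq inst ψ hψ α β
    have : NeZero a := ⟨by omega⟩
    have : NeZero b := ⟨by omega⟩
    obtain ⟨ψ₁, ψ₂, h1, h2, h3⟩ := KU_mul hab ψ hψ
    have hsa : Squarefree a := Squarefree.squarefree_of_dvd (dvd_mul_right a b) hsq
    have hsb : Squarefree b := Squarefree.squarefree_of_dvd (dvd_mul_left b a) hsq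
    have ia := iha hsa ψ₁ h1 α β
    have ib := ihb hsb ψ₂ h2 α β
    rw [h3, norm_mul, Nat.Coprime.card_divisors_mul hab]
    have hg : Int.gcd (Int.gcd α β) ((a * b : ℕ) : ℤ) =
        Int.gcd (Int.gcd α β) (a : ℤ) * Int.gcd (Int.gcd α β) (b : ℤ) := by
      rw [Int.gcd_natCast_natCast, Int.gcd_natCast_natCast, Int.gcd_natCast_natCast]
      exact Nat.Coprime.gcd_mul _ hab
    rw [hg]
    push_cast
    rw [Real.sqrt_mul (Nat.cast_nonneg _), Real.sqrt_mul (Nat.cast_nonneg _)]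
    calc ‖KU a ψ₁ α β‖ * ‖KU b ψ₂ α β‖ ≤
        ((a.divisors.card : ℝ) * √(Int.gcd (Int.gcd α β) a : ℝ) * √(a : ℝ)) *
        ((b.divisors.card : ℝ) * √(Int.gcd (Int.gcd α β) b : ℝ) * √(b : ℝ)) :=
          mul_le_mul ia ib (norm_nonneg _) (by positivity)
      _ = _ := by ring

theorem hWEI (hW : StWKL) : StWEI := by
  intro r α β hr
  have : NeZero r := ⟨hr.ne_zero⟩
  have h1 := main hW r hr (ZMod.stdAddChar (N := r)) (ZMod.isPrimitive_stdAddChar r) α β
  have h2 : Kl r α β = KU r (ZMod.stdAddChar (N := r)) α β :=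
    Pool.Agent.Helper15.AB.hKB.Kl_eq α β
  rw [h2]
  exact h1

end Pool.Agent.Helper38.KP
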