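import Pool.Agent.Helper52.KP.StL

/-!
# Project KP: module WKC (weak compactness in `L²_loc`)
-/

set_option autoImplicit false

namespace Pool.Agent.Helper38.KP

open MeasureTheory Filter Topology
open Pool.Agent.Helper52.KP
open scoped ComplexOrder

/-- bounded sequences of a separable Hilbert space have weakly convergent subsequences -/
theorem weak_subseq {H : Type} [NormedAddCommGroup H] [InnerProductSpace ℂ H] [CompleteSpace H]
    [TopologicalSpace.SeparableSpace H] (x : ℕ → H) (R : ℝ) (hx : ∀ i, ‖x i‖ ≤ R) :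
    ∃ (σ : ℕ → ℕ) (w : H), StrictMono σ ∧
      ∀ y, Tendsto (fun i => inner ℂ y (x (σ i))) atTop (𝓝 (inner ℂ y w)) := by
  have h := WeakDual.isSeqCompact_closedBall ℂ H (0 : StrongDual ℂ H) R
  let u : ℕ → WeakDual ℂ H := fun i =>
    WeakDual.toStrongDual.symm (InnerProductSpace.toDual ℂ H (x i))
  have hu : ∀ i, u i ∈ WeakDual.toStrongDual ⁻¹' Metric.closedBall (0 : StrongDual ℂ H) R := by
    intro i
    simp only [Set.mem_preimage, mem_closedBall_zero_iff, u]
    simpa using hx i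
  obtain ⟨φ, -, σ, hσ, hφ⟩ := h hu
  refine ⟨σ, (InnerProductSpace.toDual ℂ H).symm (WeakDual.toStrongDual φ), hσ, fun y => ?_⟩
  have h1 : Tendsto (fun i => (u (σ i)) y) atTop (𝓝 (φ y)) :=
    (WeakDual.eval_continuous y).continuousAt.tendsto.comp hφ
  have h2 : ∀ i, inner ℂ y (x (σ i)) = star ((u (σ i)) y) := by
    intro i
    have : (u (σ i)) y = inner ℂ (x (σ i)) y := rfl
    rw [this]
    exact (inner_conj_symm y (x (σ i))).symm
  have h3 : inner ℂ y ((InnerProductSpace.toDual ℂ H).symm (WeakDual.toStrongDual φ)) =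
      star (φ y) := by
    rw [← inner_conj_symm, InnerProductSpace.toDual_symm_apply]
    rfl
  rw [h3]
  simp only [h2]
  exact (continuous_star.tendsto _).comp h1

/-- the sum of the squares of the coordinates, `enorm` version -/
theorem enorm_toLp_sq {p : ℕ} (x : Fin p → ℂ) :
    ‖(WithLp.toLp 2 x : EuclideanSpace ℂ (Fin p))‖ₑ ^ 2 = ENNReal.ofReal (∑ q, ‖x q‖ ^ 2) := by
  rw [← ofReal_norm, ← ENNReal.ofReal_pow (norm_nonneg _), EuclideanSpace.norm_sq_eq]

theorem lint_sq_eq {α : Type} [MeasurableSpace α] {μ : Measure α} {F : Type}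
    [NormedAddCommGroup F] (f : α → F) : eLpNorm f 2 μ = (∫⁻ x, ‖f x‖ₑ ^ 2 ∂μ) ^ (1 / 2 : ℝ) := by
  rw [eLpNorm_eq_lintegral_rpow_enorm_toReal (by norm_num) (by norm_num)]
  simp

/-- exhaustion by compact sets -/
theorem exhaustion {E : Type} [TopologicalSpace E] [LocallyCompactSpace E]
    [SecondCountableTopology E] (U : Set E) (hU : IsOpen U) : ∃ S : ℕ → Set E,
      (∀ n, IsCompact (S n)) ∧ (∀ n, S n ⊆ U) ∧ Monotone S ∧
      (∀ K ⊆ U, IsCompact K → ∃ n, K ⊆ S n) := by
  have : LocallyCompactSpace U := hU.locallyCompactSpace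
  let K := CompactExhaustion.choice U
  refine ⟨fun n => Subtype.val '' (K n), fun n => (K.isCompact n).image continuous_subtype_val,
    fun n => Subtype.coe_image_subset U _, fun a b hab => Set.image_mono (K.subset hab),
    fun L hLU hL => ?_⟩
  have h1 : IsCompact (Subtype.val ⁻¹' L : Set U) := by
    rw [Subtype.isCompact_iff]
    have : Subtype.val '' (Subtype.val ⁻¹' L : Set U) = L := by
      rw [Subtype.image_preimage_coe]
      exact Set.inter_eq_right.2 hLU
    rwa [this]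
  obtain ⟨n, hn⟩ := K.exists_superset_of_isCompact h1
  refine ⟨n, fun z hz => ⟨⟨z, hLU hz⟩, hn hz, rfl⟩⟩

/-- the weight: `a (idx z)` if the sequence is already bounded on the compact set of `z` -/
theorem V_bound {p : ℕ} {E : Type} [MeasurableSpace E] (μ : Measure E) (U : Set E)
    (S : ℕ → Set E) (idx : E → ℕ)
    (hidx : ∀ z ∈ U, z ∈ S (idx z)) (N : ℕ → ℕ) (B : ℕ → ℝ)
    (a : ℕ → ℝ) (ha : ∀ n, a n ^ 2 * B n ≤ (1 / 2) ^ n)
    (i : ℕ) (v : Fin p → E → ℂ)
    (hv : ∀ n, N n ≤ i → ∀ q, IntegrableOn (fun z => ‖v q z‖ ^ 2) (S n) μ ∧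
      ∫ z in S n, ‖v q z‖ ^ 2 ∂μ ≤ B n)
    (hD : ∀ n, MeasurableSet {z | z ∈ U ∧ idx z = n}) :
    ∫⁻ z in U, ‖(WithLp.toLp 2 (fun q => ((if N (idx z) ≤ i then a (idx z) else 0 : ℝ) : ℂ) * v q z) :
      EuclideanSpace ℂ (Fin p))‖ₑ ^ 2 ∂μ ≤ ENNReal.ofReal (2 * p) := by
  have hU : U ⊆ ⋃ n, {z | z ∈ U ∧ idx z = n} := fun z hz => Set.mem_iUnion.2 ⟨idx z, hz, rfl⟩
  refine (lintegral_mono_set hU).trans ((lintegral_iUnion_le _ _).trans ?_)
  have key : ∀ n, ∫⁻ z in {z | z ∈ U ∧ idx z = n},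
      ‖(WithLp.toLp 2 (fun q => ((if N (idx z) ≤ i then a (idx z) else 0 : ℝ) : ℂ) * v q z) :
      EuclideanSpace ℂ (Fin p))‖ₑ ^ 2 ∂μ ≤ ENNReal.ofReal (p * (1 / 2) ^ n) := by
    intro n
    by_cases hn : N n ≤ i
    · calc ∫⁻ z in {z | z ∈ U ∧ idx z = n},
          ‖(WithLp.toLp 2 (fun q => ((if N (idx z) ≤ i then a (idx z) else 0 : ℝ) : ℂ) * v q z) :
            EuclideanSpace ℂ (Fin p))‖ₑ ^ 2 ∂μ
          = ∫⁻ z in {z | z ∈ U ∧ idx z = n}, ENNReal.ofReal (a n ^ 2 * ∑ q, ‖v q z‖ ^ 2) ∂μ := by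
            refine setLIntegral_congr_fun (hD n) fun z hz => ?_
            simp only
            rw [enorm_toLp_sq, hz.2, if_pos hn, Finset.mul_sum]
            congr 1
            refine Finset.sum_congr rfl fun q _ => ?_
            rw [norm_mul, mul_pow, Complex.norm_real, Real.norm_eq_abs, sq_abs]
        _ ≤ ∫⁻ z in S n, ENNReal.ofReal (a n ^ 2 * ∑ q, ‖v q z‖ ^ 2) ∂μ := by
            refine lintegral_mono_set fun z hz => ?_
            have := hidx z hz.1
            rwa [hz.2] at this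
        _ = ENNReal.ofReal (∫ z in S n, a n ^ 2 * ∑ q, ‖v q z‖ ^ 2 ∂μ) := by
            rw [ofReal_integral_eq_lintegral_ofReal]
            · exact Integrable.const_mul (integrable_finsetSum _ fun q _ => (hv n hn q).1) _
            · exact Filter.Eventually.of_forall fun z =>
                mul_nonneg (sq_nonneg _) (Finset.sum_nonneg fun q _ => sq_nonneg _)
        _ ≤ ENNReal.ofReal (p * (1 / 2) ^ n) := by
            refine ENNReal.ofReal_le_ofReal ?_
            rw [integral_const_mul, integral_finsetSum _ fun q _ => (hv n hn q).1]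
            calc a n ^ 2 * ∑ q, ∫ z in S n, ‖v q z‖ ^ 2 ∂μ
                ≤ a n ^ 2 * ∑ _q : Fin p, B n := mul_le_mul_of_nonneg_left
                  (Finset.sum_le_sum fun q _ => (hv n hn q).2) (sq_nonneg _)
              _ = p * (a n ^ 2 * B n) := by simp; ring
              _ ≤ p * (1 / 2) ^ n := mul_le_mul_of_nonneg_left (ha n) (Nat.cast_nonneg _)
    · have h0 : ∫⁻ z in {z | z ∈ U ∧ idx z = n},
          ‖(WithLp.toLp 2 (fun q => ((if N (idx z) ≤ i then a (idx z) else 0 : ℝ) : ℂ) * v q z) :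
            EuclideanSpace ℂ (Fin p))‖ₑ ^ 2 ∂μ =
          ∫⁻ z in {z | z ∈ U ∧ idx z = n}, 0 ∂μ := by
        refine setLIntegral_congr_fun (hD n) fun z hz => ?_
        simp only
        rw [enorm_toLp_sq, hz.2, if_neg hn]
        simp
      rw [h0]
      simp
  refine (ENNReal.tsum_le_tsum key).trans ?_
  rw [← ENNReal.ofReal_tsum_of_nonneg (fun n => by positivity)
    ((summable_geometric_of_lt_one (by norm_num) (by norm_num)).mul_left _), tsum_mul_left,
    tsum_geometric_of_lt_one (by norm_num) (by norm_num)]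
  refine ENNReal.ofReal_le_ofReal ?_
  norm_num
  linarith

theorem hWKC : StWKC := by
  classical
  intro m p U hU v hmeas hb
  obtain ⟨S, hSc, hSU, hSm, hSK⟩ := exhaustion U hU
  have hS1 : ∀ z ∈ U, ∃ n, z ∈ S n := by
    intro z hz
    obtain ⟨n, hn⟩ := hSK {z} (Set.singleton_subset_iff.2 hz) isCompact_singleton
    exact ⟨n, hn rfl⟩
  have hex : ∀ z : Fin m → ℂ, ∃ n, z ∈ S n ∨ z ∉ U := by
    intro z
    by_cases hz : z ∈ U
    · obtain ⟨n, hn⟩ := hS1 z hz
      exact ⟨n, Or.inl hn⟩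
    · exact ⟨0, Or.inr hz⟩
  let idx : (Fin m → ℂ) → ℕ := fun z => Nat.find (hex z)
  have hidx : ∀ z ∈ U, z ∈ S (idx z) := fun z hz =>
    (Nat.find_spec (hex z)).resolve_right (not_not.2 hz)
  have hidxle : ∀ n, ∀ z ∈ S n, idx z ≤ n := fun n z hz => Nat.find_min' (hex z) (Or.inl hz)
  have hidxm : Measurable idx := measurable_find hex fun k => by
    have : {x : Fin m → ℂ | x ∈ S k ∨ x ∉ U} = S k ∪ Uᶜ := rfl
    rw [this]
    exact (hSc k).measurableSet.union hU.measurableSet.compl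
  have hBN : ∀ n, ∃ (B : ℝ) (N : ℕ), 0 ≤ B ∧ ∀ i, N ≤ i → ∀ q,
      IntegrableOn (fun z => ‖v i q z‖ ^ 2) (S n) ∧ ∫ z in S n, ‖v i q z‖ ^ 2 ≤ B := by
    intro n
    obtain ⟨B, hB⟩ := hb (S n) (hSU n) (hSc n)
    obtain ⟨N, hN⟩ := eventually_atTop.1 hB
    exact ⟨max B 0, N, le_max_right _ _, fun i hi q =>
      ⟨(hN i hi q).1, (hN i hi q).2.trans (le_max_left _ _)⟩⟩
  choose B N hB0 hBN using hBN
  let a : ℕ → ℝ := fun n => (1 / 2) ^ n / (B n + 1)
  have ha0 : ∀ n, 0 < a n := fun n => by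
    have := hB0 n
    positivity
  have ha : ∀ n, a n ^ 2 * B n ≤ (1 / 2) ^ n := by
    intro n
    have h1 : 0 < B n + 1 := by have := hB0 n; linarith
    have h2 : a n ^ 2 * B n = (1 / 2) ^ n * ((1 / 2) ^ n * (B n / (B n + 1) ^ 2)) := by
      simp only [a]
      field_simp
    rw [h2]
    have h3 : (1 / 2 : ℝ) ^ n ≤ 1 := pow_le_one₀ (by norm_num) (by norm_num)
    have h4 : B n / (B n + 1) ^ 2 ≤ 1 := by
      rw [div_le_one (by positivity)]
      nlinarith [hB0 n]
    have h5 : 0 ≤ B n / (B n + 1) ^ 2 := div_nonneg (hB0 n) (by positivity)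
    have h6 : (1 / 2 : ℝ) ^ n * (B n / (B n + 1) ^ 2) ≤ 1 * 1 :=
      mul_le_mul h3 h4 h5 zero_le_one
    calc (1 / 2 : ℝ) ^ n * ((1 / 2) ^ n * (B n / (B n + 1) ^ 2)) ≤ (1 / 2) ^ n * (1 * 1) :=
          mul_le_mul_of_nonneg_left h6 (by positivity)
      _ = (1 / 2) ^ n := by ring
  let V : ℕ → (Fin m → ℂ) → EuclideanSpace ℂ (Fin p) := fun i z =>
    WithLp.toLp 2 (fun q => ((if N (idx z) ≤ i then a (idx z) else 0 : ℝ) : ℂ) * v i q z)
  have hD : ∀ n, MeasurableSet {z | z ∈ U ∧ idx z = n} := fun n =>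
    hU.measurableSet.inter (hidxm (measurableSet_singleton n))
  have hVb : ∀ i, ∫⁻ z in U, ‖V i z‖ₑ ^ 2 ≤ ENNReal.ofReal (2 * p) := fun i =>
    V_bound volume U S idx hidx N B a ha i (v i) (fun n hn q => hBN n i hn q) hD
  have hVm : ∀ i, AEStronglyMeasurable (V i) (volume.restrict U) := by
    intro i
    refine (PiLp.continuous_toLp 2 _).comp_aestronglyMeasurable ?_
    refine AEMeasurable.aestronglyMeasurable (aemeasurable_pi_lambda _ fun q => ?_)
    refine AEMeasurable.mul ?_ (hmeas i q).aemeasurable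
    refine Measurable.aemeasurable ?_
    exact Complex.measurable_ofReal.comp
      ((measurable_from_nat (f := fun n => if N n ≤ i then a n else 0)).comp hidxm)
  have hVL : ∀ i, MemLp (V i) 2 (volume.restrict U) := by
    intro i
    refine ⟨hVm i, ?_⟩
    rw [lint_sq_eq]
    exact ENNReal.rpow_lt_top_of_nonneg (by norm_num) ((hVb i).trans_lt ENNReal.ofReal_lt_top).ne
  let x : ℕ → Lp (EuclideanSpace ℂ (Fin p)) 2 (volume.restrict U) := fun i => (hVL i).toLp (V i)
  have hx : ∀ i, ‖x i‖ ≤ Real.sqrt (2 * p) := by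
    intro i
    rw [Lp.norm_toLp, lint_sq_eq]
    refine ENNReal.toReal_le_of_le_ofReal (Real.sqrt_nonneg _) ?_
    rw [Real.sqrt_eq_rpow, ← ENNReal.ofReal_rpow_of_nonneg (by positivity) (by norm_num)]
    exact ENNReal.rpow_le_rpow (hVb i) (by norm_num)
  have hfact : Fact ((2 : ENNReal) ≠ ⊤) := ⟨by norm_num⟩
  have hsc : SecondCountableTopology
      (Lp (EuclideanSpace ℂ (Fin p)) 2 (volume.restrict U)) := inferInstance
  obtain ⟨σ, W, hσ, hW⟩ := weak_subseq x _ hx
  have hWm := Lp.memLp W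
  let w : Fin p → (Fin m → ℂ) → ℂ := fun q z => ((a (idx z))⁻¹ : ℝ) * (W z) q
  have hwm : ∀ q, AEStronglyMeasurable (w q) (volume.restrict U) := by
    intro q
    refine AEStronglyMeasurable.mul ?_ ?_
    · refine Measurable.aestronglyMeasurable ?_
      exact Complex.measurable_ofReal.comp
        ((measurable_from_nat (f := fun n => (a n)⁻¹)).comp hidxm)
    · exact (EuclideanSpace.proj q : EuclideanSpace ℂ (Fin p) →L[ℂ] ℂ).continuous
        |>.comp_aestronglyMeasurable hWm.1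
  have hbd : ∀ K ⊆ U, IsCompact K → ∃ n C, (∀ z ∈ K, z ∈ S n) ∧ 0 ≤ C ∧
      ∀ z ∈ K, (a (idx z))⁻¹ ≤ C := by
    intro K hKU hK
    obtain ⟨n, hn⟩ := hSK K hKU hK
    refine ⟨n, ∑ k ∈ Finset.range (n + 1), (a k)⁻¹, fun z hz => hn hz,
      Finset.sum_nonneg fun k _ => (inv_pos.2 (ha0 k)).le, fun z hz => ?_⟩
    exact Finset.single_le_sum (f := fun k => (a k)⁻¹) (fun k _ => (inv_pos.2 (ha0 k)).le)
      (Finset.mem_range.2 (Nat.lt_succ_of_le (hidxle n z (hn hz))))
  refine ⟨σ, w, hσ, fun q => ⟨hwm q, fun K hKU hK => ?_⟩, fun K hKU hK φ hφ q => ?_⟩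
  · obtain ⟨n, C, hn, hC0, hC⟩ := hbd K hKU hK
    have h1 : MemLp (w q) 2 (volume.restrict K) := by
      have h2 : MemLp (fun z => (W z : EuclideanSpace ℂ (Fin p))) 2 (volume.restrict K) :=
        hWm.mono_measure (Measure.restrict_mono hKU le_rfl)
      refine MemLp.of_le_mul (c := C) h2 ((hwm q).mono_measure
        (Measure.restrict_mono hKU le_rfl)) ?_
      refine (ae_restrict_iff' hK.measurableSet).2 (Filter.Eventually.of_forall fun z hz => ?_)
      simp only [w]
      rw [norm_mul, Complex.norm_real, Real.norm_of_nonneg (inv_pos.2 (ha0 _)).le]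
      exact mul_le_mul (hC z hz) (PiLp.norm_apply_le (W z) q) (norm_nonneg _) hC0
    exact h1.integrable_norm_pow (by norm_num)
  · obtain ⟨n, C, hn, hC0, hC⟩ := hbd K hKU hK
    let y0 : (Fin m → ℂ) → EuclideanSpace ℂ (Fin p) := fun z =>
      EuclideanSpace.single q (star (φ z) * ((a (idx z))⁻¹ : ℝ))
    have hy0m : AEStronglyMeasurable y0 (volume.restrict K) := by
      have hc : AEMeasurable (fun z => star (φ z) * (((a (idx z))⁻¹ : ℝ) : ℂ))
          (volume.restrict K) := by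
        refine AEMeasurable.mul ?_ ?_
        · exact (continuous_star.measurable).comp_aemeasurable hφ.1.aemeasurable
        · exact (Complex.measurable_ofReal.comp
            ((measurable_from_nat (f := fun n => (a n)⁻¹)).comp hidxm)).aemeasurable
      refine (PiLp.continuous_toLp 2 _).comp_aestronglyMeasurable
        (f := fun z => (Pi.single q (star (φ z) * (((a (idx z))⁻¹ : ℝ) : ℂ)) : Fin p → ℂ)) ?_
      refine AEMeasurable.aestronglyMeasurable (aemeasurable_pi_lambda _ fun j => ?_)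
      by_cases hj : j = q
      · subst hj
        simpa using hc
      · simp [Pi.single_eq_of_ne hj]
    have hy0 : MemLp y0 2 (volume.restrict K) := by
      refine MemLp.of_le_mul (c := C) hφ hy0m ?_
      refine (ae_restrict_iff' hK.measurableSet).2 (Filter.Eventually.of_forall fun z hz => ?_)
      simp only [y0]
      rw [PiLp.norm_single, norm_mul, Complex.norm_real, norm_star,
        Real.norm_of_nonneg (inv_pos.2 (ha0 _)).le, mul_comm]
      exact mul_le_mul_of_nonneg_right (hC z hz) (norm_nonneg _)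
    have hy : MemLp (K.indicator y0) 2 (volume.restrict U) := by
      refine MemLp.restrict (s := U) ?_
      exact (memLp_indicator_iff_restrict hK.measurableSet).2 hy0
    have hkey := hW (hy.toLp _)
    have e1 : ∀ G : (Fin m → ℂ) → EuclideanSpace ℂ (Fin p), ∀ hG : MemLp G 2 (volume.restrict U),
        inner ℂ (hy.toLp _) (hG.toLp _) = ∫ z in K, (G z) q * (((a (idx z))⁻¹ : ℝ) * φ z) := by
      intro G hG
      rw [L2.inner_def]
      have h1 : ∫ z in U, inner ℂ ((hy.toLp _ : (Fin m → ℂ) → EuclideanSpace ℂ (Fin p)) z)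
          ((hG.toLp _ : (Fin m → ℂ) → EuclideanSpace ℂ (Fin p)) z) =
          ∫ z in U, K.indicator (fun z => (G z) q * (((a (idx z))⁻¹ : ℝ) * φ z)) z := by
        refine integral_congr_ae ?_
        filter_upwards [hy.coeFn_toLp, hG.coeFn_toLp] with z h2 h3
        rw [h2, h3]
        by_cases hz : z ∈ K
        · rw [Set.indicator_of_mem hz, Set.indicator_of_mem hz]
          simp only [y0, EuclideanSpace.inner_single_left]
          simp
          ring
        · rw [Set.indicator_of_notMem hz, Set.indicator_of_notMem hz, inner_zero_left]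
      rw [h1, setIntegral_indicator hK.measurableSet, Set.inter_eq_right.2 hKU]
    have e2 : inner ℂ (hy.toLp _) W = ∫ z in K, w q z * φ z := by
      have h1 : W = hWm.toLp _ := (Lp.toLp_coeFn W hWm).symm
      rw [h1, e1 _ hWm]
      refine integral_congr_ae (Filter.Eventually.of_forall fun z => ?_)
      simp only [w]
      ring
    rw [← e2]
    refine hkey.congr' ?_
    have hev : ∀ᶠ i in atTop, ∀ k ≤ n, N k ≤ σ i := by
      have h1 : ∀ k ∈ Finset.range (n + 1), ∀ᶠ i in atTop, N k ≤ σ i := fun k _ =>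
        hσ.tendsto_atTop.eventually_ge_atTop (N k)
      have h2 := (Filter.eventually_all_finset _).2 h1
      filter_upwards [h2] with i hi k hk
      exact hi k (Finset.mem_range.2 (Nat.lt_succ_of_le hk))
    filter_upwards [hev] with i hi
    rw [e1 _ (hVL (σ i))]
    refine setIntegral_congr_fun hK.measurableSet fun z hz => ?_
    have h1 : N (idx z) ≤ σ i := hi _ (hidxle n z (hn z hz))
    have h2 : ((a (idx z) : ℝ) : ℂ) ≠ 0 := by exact_mod_cast (ha0 _).ne'
    simp only [V]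
    rw [if_pos h1]
    push_cast
    field_simp

end Pool.Agent.Helper38.KP
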